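import Pool.Agent.W770.KP.Stm

/-! Project KP (helper770), part LL2: the line lemma without multiplicities. -/

open Finset

namespace Pool.Agent.W320.KP

open Pool.Agent.W770.KP
open scoped Classical

theorem prod_facts {F : Type} [Field F] {n : ℕ} (b v : Fin n → F) (d : Fin n → ℕ)
    (I : Finset (Fin n)) :
    (∏ i ∈ I, (Polynomial.C (b i) + Polynomial.X * Polynomial.C (v i)) ^ d i).natDegree ≤
      ∑ i ∈ I, d i ∧
    (∏ i ∈ I, (Polynomial.C (b i) + Polynomial.X * Polynomial.C (v i)) ^ d i).coeff
      (∑ i ∈ I, d i) = ∏ i ∈ I, v i ^ d i := by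
  induction I using Finset.induction_on with
  | empty => simp
  | insert a I ha ih =>
    rw [prod_insert ha, sum_insert ha, prod_insert ha]
    have h1 : (Polynomial.C (b a) + Polynomial.X * Polynomial.C (v a)).natDegree ≤ 1 := by
      compute_degree
    have h2 : ((Polynomial.C (b a) + Polynomial.X * Polynomial.C (v a)) ^ d a).natDegree ≤
        d a := by
      have := Polynomial.natDegree_pow_le_of_le (d a) h1
      simpa using this
    have h3 : ((Polynomial.C (b a) + Polynomial.X * Polynomial.C (v a)) ^ d a).coeff (d a) =
        v a ^ d a := by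
      have := Polynomial.coeff_pow_of_natDegree_le (m := d a) h1
      rw [mul_one] at this
      rw [this]
      simp [Polynomial.coeff_X_mul]
    refine ⟨Polynomial.natDegree_mul_le_of_le h2 ih.1, ?_⟩
    rw [Polynomial.coeff_mul_add_eq_of_natDegree_le h2 ih.1, h3, ih.2]

theorem LL2_proof : S_LL2 := by
  intro F _ _ n P e hP b v hcard
  set p : Polynomial F := MvPolynomial.aeval
    (fun i => Polynomial.C (b i) + Polynomial.X * Polynomial.C (v i)) P with hp
  have hp' : p = ∑ d ∈ P.support, Polynomial.C (P.coeff d) *
      ∏ i, (Polynomial.C (b i) + Polynomial.X * Polynomial.C (v i)) ^ d i := by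
    rw [hp, MvPolynomial.aeval_def, MvPolynomial.eval₂_eq']
    rfl
  have hdeg : ∀ d ∈ P.support, ∑ i, d i ≤ e := by
    intro d hd
    refine le_trans ?_ hP
    have := MvPolynomial.le_totalDegree hd
    rwa [Finsupp.sum_fintype _ _ (by simp)] at this
  have h1 : p.natDegree ≤ e := by
    rw [hp']
    apply Polynomial.natDegree_sum_le_of_forall_le
    intro d hd
    refine le_trans (Polynomial.natDegree_C_mul_le _ _) ?_
    exact le_trans (prod_facts b v d univ).1 (hdeg d hd)
  have heval : ∀ t : F, p.eval t = MvPolynomial.eval (b + t • v) P := by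
    intro t
    rw [hp', Polynomial.eval_finsetSum, MvPolynomial.eval_eq']
    apply sum_congr rfl
    intro d _
    rw [Polynomial.eval_mul, Polynomial.eval_C, Polynomial.eval_prod]
    congr 1
    apply prod_congr rfl
    intro i _
    rw [Polynomial.eval_pow, Polynomial.eval_add, Polynomial.eval_mul, Polynomial.eval_C,
      Polynomial.eval_C, Polynomial.eval_X, Pi.add_apply, Pi.smul_apply, smul_eq_mul]
  have h0 : p = 0 := by
    by_contra hne
    have h2 := Polynomial.card_roots' p
    have h3 : (univ.filter (fun t : F => MvPolynomial.eval (b + t • v) P = 0)) ⊆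
        p.roots.toFinset := by
      intro t ht
      rw [mem_filter] at ht
      rw [Multiset.mem_toFinset, Polynomial.mem_roots hne, Polynomial.IsRoot, heval]
      exact ht.2
    have h4 := card_le_card h3
    have h5 := Multiset.toFinset_card_le p.roots
    omega
  have hc : p.coeff e = MvPolynomial.eval v (MvPolynomial.homogeneousComponent e P) := by
    rw [hp', Polynomial.finsetSum_coeff, MvPolynomial.homogeneousComponent_apply, map_sum,
      sum_filter]
    apply sum_congr rfl
    intro d hd
    rw [Polynomial.coeff_C_mul]
    have hdd : d.degree = ∑ i, d i := Finsupp.degree_eq_sum d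
    split_ifs with h
    · rw [MvPolynomial.eval_monomial, Finsupp.prod_fintype _ _ (by simp)]
      rw [← h, hdd, (prod_facts b v d univ).2]
    · rw [Polynomial.coeff_eq_zero_of_natDegree_lt, mul_zero]
      refine lt_of_le_of_lt (prod_facts b v d univ).1 ?_
      have := hdeg d hd
      omega
  rw [← hc, h0, Polynomial.coeff_zero]

end Pool.Agent.W320.KP
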